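import Pool.Agent.Helper51.DI.ChernDefs

/-!
# Chern classes in dimension `d + 1`, and corresponding smooth divisors
-/

set_option autoImplicit false

namespace Pool.Agent.Lin57

open Pool.Agent.Hodge81 Pool.Agent.Hodge51

/-- `∫ D c(X) / (1 + D)`: the value which adjunction gives for the topological Euler
characteristic of a smooth divisor of class `D` in a variety `X` of dimension `d + 1` -/
noncomputable def eulerNumber {d : ℕ} {A : Type*} [Ring A] [Algebra ℂ A] (X : HodgeRing (d + 1) A)
    (c : ℕ → A) (D : A) : ℂ :=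
  ∑ j ∈ Finset.range (d + 1), (-1) ^ j * X.int (D ^ (j + 1) * c (d - j))

/-- `∫ exp (-D) td`: the value which the Riemann-Roch theorem gives for the Euler characteristic
of `O(-D)` on a fivefold `X`; `todd` are the Todd polynomials `td_0, ..., td_5` -/
noncomputable def chiNeg {d : ℕ} {A : Type*} [Ring A] [Algebra ℂ A] (X : HodgeRing (d + 1) A)
    (c : ℕ → A) (D : A) : ℂ :=
  ∑ j ∈ Finset.range 6, (-1) ^ j / (j.factorial : ℂ) * X.int (D ^ j * todd c (5 - j))

/-- The Chern classes of a smooth projective variety of dimension `d + 1`: real classes `c k` of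
type `(k, k)` with `c 0 = 1` and `c 1` the given first Chern class, which satisfy the Gauss-Bonnet
formula, the identity of Libgober and Wood and, if the dimension is `5`, the theorem of
Hirzebruch-Riemann-Roch for the structure sheaf. -/
structure Chern {d : ℕ} {A : Type*} [Ring A] [Algebra ℂ A] (X : HodgeRing (d + 1) A) where
  c : ℕ → A
  c_mem : ∀ k, c k ∈ X.H k k
  c_real : ∀ k, X.conj (c k) = c k
  c_zero : c 0 = 1
  c_one : c 1 = X.c1
  gaussBonnet : ∑ p ∈ Finset.range (d + 2), ∑ q ∈ Finset.range (d + 2),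
    (-1) ^ (p + q) * (X.h p q : ℂ) = X.int (c (d + 1))
  libgoberWood : ∑ p ∈ Finset.range (d + 2), ∑ q ∈ Finset.range (d + 2),
    (-1) ^ (p + q) * ((p : ℂ) - (d + 1) / 2) ^ 2 * (X.h p q : ℂ) =
      (d + 1) / 12 * X.int (c (d + 1)) + 1 / 6 * X.int (c 1 * c d)
  riemannRoch : d = 4 → ∑ q ∈ Finset.range 6, (-1) ^ q * (X.h 0 q : ℂ) = chiNeg X c 0

/-- a connected smooth projective variety of dimension `d`, seen through its Hodge ring -/
structure Variety (d : ℕ) where
  A : Type
  [ring : Ring A]
  [algebra : Algebra ℂ A]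
  [finite : FiniteDimensional ℂ A]
  hodge : HodgeRing d A

attribute [instance] Variety.ring Variety.algebra Variety.finite

/-- The disjoint union of the varieties `E i` of dimension `d` has the topological Euler
characteristic of a smooth divisor of class `D` and, if `d = 4`, its arithmetic genus
`χ(O) - χ(O(-D))`. -/
structure HasInvariants {d : ℕ} {A : Type*} [Ring A] [Algebra ℂ A] {X : HodgeRing (d + 1) A}
    (cX : Chern X) (D : A) {N : ℕ} (E : Fin N → Variety d) : Prop where
  euler : ∑ i, ∑ p ∈ Finset.range (d + 1), ∑ q ∈ Finset.range (d + 1),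
    (-1) ^ (p + q) * ((E i).hodge.h p q : ℂ) = eulerNumber X cX.c D
  arithmetic : d = 4 → ∑ i, ∑ q ∈ Finset.range 5, (-1) ^ q * ((E i).hodge.h 0 q : ℂ) =
    chiNeg X cX.c 0 - chiNeg X cX.c D

/-- What derived equivalent smooth divisors of classes `D` in `X` and `D'` in `Y` give: their
(finitely many) connected components `E i`, `E' i` are related in pairs by isometries of the Mukai
pairing and have the same `h^{1,0}`. -/
def Correspond {d : ℕ} {A B : Type*} [Ring A] [Algebra ℂ A] [Ring B] [Algebra ℂ B]
    {X : HodgeRing (d + 1) A} {Y : HodgeRing (d + 1) B} (cX : Chern X) (cY : Chern Y)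
    (D : A) (D' : B) : Prop :=
  ∃ (N : ℕ) (E E' : Fin N → Variety d), HasInvariants cX D E ∧ HasInvariants cY D' E' ∧
    ∀ i, (E i).hodge.h 1 0 = (E' i).hodge.h 1 0 ∧
      ∃ psi : (E i).A ≃ₗ[ℂ] (E' i).A, IsMukaiIsometry (E i).hodge (E' i).hodge psi

/-- What an equivalence gives which is linear over a common base, if `c_1` is the pullback of a
class of the base, and `hX`, `hY` are the pullbacks of an ample class of the base: for infinitely
many `m` and, given `m`, infinitely many `k` there are corresponding smooth divisors of the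
classes `k h + m c_1`. -/
def LinearOverBase {d : ℕ} {A B : Type*} [Ring A] [Algebra ℂ A] [Ring B] [Algebra ℂ B]
    {X : HodgeRing (d + 1) A} {Y : HodgeRing (d + 1) B} (cX : Chern X) (cY : Chern Y)
    (hX : A) (hY : B) : Prop :=
  ∀ M : ℕ, ∃ m : ℤ, M < m.natAbs ∧ ∀ K : ℕ, ∃ k : ℤ, K < k.natAbs ∧
    Correspond cX cY ((k : ℂ) • hX + (m : ℂ) • X.c1) ((k : ℂ) • hY + (m : ℂ) • Y.c1)

end Pool.Agent.Lin57
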