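import Pool.Agent.Helper57.LF.Defs
import Pool.Agent.Helper51.DI.FivefoldMain

/-!
# `∫ c_1 c_{n-1}` for equivalences which are linear over a base
-/

set_option autoImplicit false

namespace Pool.Agent.Lin57

open Pool.Agent.Hodge81 Pool.Agent.Hodge51 Complex Module

section Euler

variable {A B : Type*} [Ring A] [Algebra ℂ A] [FiniteDimensional ℂ A]
  [Ring B] [Algebra ℂ B] [FiniteDimensional ℂ B] {n : ℕ}

/-- a sum over a diagonal of a square -/
theorem sum_diagonal {a b m n : ℕ} (hn : a + b + m = n) (hab : a = 0 ∨ b = 0)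
    (f : ℕ → ℕ → ℂ) :
    ∑ x ∈ (Finset.range (n + 1) ×ˢ Finset.range (n + 1)).filter
      (fun x : ℕ × ℕ => (x.1 : ℤ) - x.2 = (a : ℤ) - b), f x.1 x.2 =
      ∑ j ∈ Finset.range (m + 1), f (a + j) (b + j) := by
  refine Finset.sum_nbij' (fun x : ℕ × ℕ => min x.1 x.2) (fun j => (a + j, b + j)) ?_ ?_ ?_ ?_ ?_
  · intro x hx
    simp only [Finset.mem_filter, Finset.mem_product, Finset.mem_range] at hx ⊢
    omega
  · intro j hj
    simp only [Finset.mem_filter, Finset.mem_product, Finset.mem_range] at hj ⊢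
    omega
  · rintro ⟨x, y⟩ hx
    simp only [Finset.mem_filter, Finset.mem_product, Finset.mem_range] at hx ⊢
    ext <;> dsimp only <;> omega
  · intro j hj
    dsimp only
    omega
  · rintro ⟨x, y⟩ hx
    simp only [Finset.mem_filter, Finset.mem_product, Finset.mem_range] at hx ⊢
    congr 1 <;> omega

/-- a Mukai isometry preserves the topological Euler characteristic -/
theorem euler_eq {X : HodgeRing n A} {Y : HodgeRing n B} {phi : A ≃ₗ[ℂ] B}
    (hphi : IsMukaiIsometry X Y phi) :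
    ∑ p ∈ Finset.range (n + 1), ∑ q ∈ Finset.range (n + 1), (-1) ^ (p + q) * (X.h p q : ℂ) =
      ∑ p ∈ Finset.range (n + 1), ∑ q ∈ Finset.range (n + 1),
        (-1) ^ (p + q) * (Y.h p q : ℂ) := by
  have key : ∀ g : ℕ → ℕ → ℂ, ∑ p ∈ Finset.range (n + 1), ∑ q ∈ Finset.range (n + 1), g p q =
      ∑ i ∈ Finset.Icc (-(n : ℤ)) n, ∑ x ∈ (Finset.range (n + 1) ×ˢ Finset.range (n + 1)).filter
        (fun x : ℕ × ℕ => (x.1 : ℤ) - x.2 = i), g x.1 x.2 := by
    intro g
    rw [← Finset.sum_product', ← Finset.sum_fiberwise_of_maps_to (t := Finset.Icc (-(n : ℤ)) n)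
      (g := fun x : ℕ × ℕ => (x.1 : ℤ) - x.2)]
    intro x hx
    simp only [Finset.mem_product, Finset.mem_range] at hx
    simp only [Finset.mem_Icc]
    omega
  rw [key, key]
  refine Finset.sum_congr rfl fun i hi => ?_
  rw [Finset.mem_Icc] at hi
  obtain ⟨a, b, m, hn, hab, hi'⟩ : ∃ a b m : ℕ, a + b + m = n ∧ (a = 0 ∨ b = 0) ∧
      i = (a : ℤ) - b := by
    rcases le_total 0 i with h | h
    · exact ⟨i.toNat, 0, n - i.toNat, by omega, Or.inr rfl, by omega⟩
    · exact ⟨0, (-i).toNat, n - (-i).toNat, by omega, Or.inl rfl, by omega⟩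
  subst hi'
  rw [sum_diagonal hn hab (fun p q => (-1) ^ (p + q) * (X.h p q : ℂ)),
    sum_diagonal hn hab (fun p q => (-1) ^ (p + q) * (Y.h p q : ℂ))]
  have h1 := column_sum hphi hn hab
  have h2 : ∀ h : ℕ → ℕ → ℕ, ∑ j ∈ Finset.range (m + 1),
      (-1 : ℂ) ^ (a + j + (b + j)) * (h (a + j) (b + j) : ℂ) =
      (-1) ^ (a + b) * ((∑ j ∈ Finset.range (m + 1), h (a + j) (b + j) : ℕ) : ℂ) := by
    intro h
    rw [Nat.cast_sum, Finset.mul_sum]
    refine Finset.sum_congr rfl fun j _ => ?_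
    rw [show a + j + (b + j) = a + b + 2 * j by ring, pow_add, pow_mul]
    norm_num
  rw [h2, h2, h1]

end Euler

section Poly

variable {A : Type*} [Ring A] [Algebra ℂ A]

/-- evaluation of a polynomial with coefficients in `A` at a scalar -/
noncomputable def ev (t : ℂ) : Polynomial A →+* A :=
  Polynomial.eval₂RingHom' (RingHom.id A) (algebraMap ℂ A t)
    (fun a => (Algebra.commutes t a).symm)

theorem ev_lin (t : ℂ) (h b : A) :
    ev t (Polynomial.C h * Polynomial.X + Polynomial.C b) = t • h + b := by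
  simp only [ev, Polynomial.eval₂RingHom'_apply, Polynomial.eval₂_add, Polynomial.eval₂_C,
    RingHom.id_apply, Polynomial.eval₂_mul_X, Algebra.smul_def, Algebra.commutes]

theorem ev_C (t : ℂ) (a : A) : ev t (Polynomial.C a) = a := by
  simp only [ev, Polynomial.eval₂RingHom'_apply, Polynomial.eval₂_C, RingHom.id_apply]

/-- a functional applied to the coefficients -/
noncomputable def down (L : A →ₗ[ℂ] ℂ) (p : Polynomial A) : Polynomial ℂ :=
  p.sum fun i a => Polynomial.monomial i (L a)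

theorem down_eval (L : A →ₗ[ℂ] ℂ) (p : Polynomial A) (t : ℂ) :
    (down L p).eval t = L (ev t p) := by
  simp only [ev, Polynomial.eval₂RingHom'_apply, Polynomial.eval₂_eq_sum, down, Polynomial.sum,
    Polynomial.eval_finsetSum, Polynomial.eval_monomial, map_sum, RingHom.id_apply]
  refine Finset.sum_congr rfl fun i _ => ?_
  rw [← map_pow, ← Algebra.commutes, ← Algebra.smul_def, map_smul, smul_eq_mul, mul_comm]

variable {d : ℕ} (X : HodgeRing (d + 1) A) (c : ℕ → A)

/-- `eulerNumber (k h + b)` as a polynomial in `k` -/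
noncomputable def eulerLine (h b : A) : Polynomial ℂ :=
  ∑ j ∈ Finset.range (d + 1), Polynomial.C ((-1) ^ j) * down X.int
    ((Polynomial.C h * Polynomial.X + Polynomial.C b) ^ (j + 1) * Polynomial.C (c (d - j)))

theorem eulerLine_eval (h b : A) (k : ℂ) :
    (eulerLine X c h b).eval k = eulerNumber X c (k • h + b) := by
  rw [eulerLine, eulerNumber, Polynomial.eval_finsetSum]
  refine Finset.sum_congr rfl fun j _ => ?_
  rw [Polynomial.eval_mul, Polynomial.eval_C, down_eval, map_mul, map_pow, ev_lin, ev_C]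

/-- `chiNeg (k h + b)` as a polynomial in `k` -/
noncomputable def chiLine (h b : A) : Polynomial ℂ :=
  ∑ j ∈ Finset.range 6, Polynomial.C ((-1) ^ j / (j.factorial : ℂ)) * down X.int
    ((Polynomial.C h * Polynomial.X + Polynomial.C b) ^ j * Polynomial.C (todd c (5 - j)))

theorem chiLine_eval (h b : A) (k : ℂ) :
    (chiLine X c h b).eval k = chiNeg X c (k • h + b) := by
  simp only [chiLine, chiNeg, Polynomial.eval_finsetSum, Polynomial.eval_mul,
    Polynomial.eval_C, down_eval, map_mul, map_pow, ev_lin, ev_C]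

/-- `eulerNumber (t c_1)` as a polynomial in `t` -/
noncomputable def eulerRay : Polynomial ℂ :=
  ∑ j ∈ Finset.range (d + 1), Polynomial.C ((-1) ^ j * X.int (c 1 ^ (j + 1) * c (d - j))) *
    Polynomial.X ^ (j + 1)

theorem eulerRay_eval (t : ℂ) : (eulerRay X c).eval t = eulerNumber X c (t • c 1) := by
  simp only [eulerRay, eulerNumber, Polynomial.eval_finsetSum, Polynomial.eval_mul,
    Polynomial.eval_C, Polynomial.eval_pow, Polynomial.eval_X]
  refine Finset.sum_congr rfl fun j _ => ?_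
  rw [smul_pow, smul_mul_assoc, map_smul, smul_eq_mul]
  ring

theorem eulerRay_coeff_one : (eulerRay X c).coeff 1 = X.int (c 1 * c d) := by
  rw [eulerRay, Polynomial.finsetSum_coeff, Finset.sum_range_succ', Finset.sum_eq_zero]
  · rw [Polynomial.coeff_C_mul, Polynomial.coeff_X_pow]
    simp
  · intro j _
    rw [Polynomial.coeff_C_mul, Polynomial.coeff_X_pow, if_neg (by omega), mul_zero]

end Poly

section Compare

variable {A B : Type*} [Ring A] [Algebra ℂ A] [FiniteDimensional ℂ A]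
  [Ring B] [Algebra ℂ B] [FiniteDimensional ℂ B] {d : ℕ}
  {X : HodgeRing (d + 1) A} {Y : HodgeRing (d + 1) B} {cX : Chern X} {cY : Chern Y}

omit [FiniteDimensional ℂ A] [FiniteDimensional ℂ B] in
theorem correspond_euler {D : A} {D' : B} (h : Correspond cX cY D D') :
    eulerNumber X cX.c D = eulerNumber Y cY.c D' := by
  obtain ⟨N, E, E', hE, hE', hc⟩ := h
  rw [← hE.euler, ← hE'.euler]
  refine Finset.sum_congr rfl fun i _ => ?_
  obtain ⟨-, psi, hpsi⟩ := hc i
  exact euler_eq hpsi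

omit [FiniteDimensional ℂ A] [FiniteDimensional ℂ B] in
theorem line_euler {hX : A} {hY : B} {u : A} {v : B}
    (h : ∀ K : ℕ, ∃ k : ℤ, K < k.natAbs ∧
      Correspond cX cY ((k : ℂ) • hX + u) ((k : ℂ) • hY + v)) :
    eulerNumber X cX.c u = eulerNumber Y cY.c v := by
  have h1 := poly_eq_of_infinite (eulerLine X cX.c hX u) (eulerLine Y cY.c hY v) (fun K => by
    obtain ⟨k, hk, hc⟩ := h K
    refine ⟨k, hk, ?_⟩
    rw [eulerLine_eval, eulerLine_eval]
    exact correspond_euler hc)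
  have h2 := congrArg (Polynomial.eval 0) h1
  rwa [eulerLine_eval, eulerLine_eval, zero_smul, zero_add, zero_smul, zero_add] at h2

omit [FiniteDimensional ℂ A] [FiniteDimensional ℂ B] in
/-- `∫ c_1 c_{n-1}` is preserved -/
theorem chern_number {hX : A} {hY : B} (h : LinearOverBase cX cY hX hY) :
    X.int (cX.c 1 * cX.c d) = Y.int (cY.c 1 * cY.c d) := by
  have h1 := poly_eq_of_infinite (eulerRay X cX.c) (eulerRay Y cY.c) (fun M => by
    obtain ⟨m, hm, hc⟩ := h M
    refine ⟨m, hm, ?_⟩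
    rw [eulerRay_eval, eulerRay_eval, cX.c_one, cY.c_one]
    exact line_euler hc)
  have h2 := congrArg (fun p => Polynomial.coeff p 1) h1
  simpa only [eulerRay_coeff_one] using h2

/-- the relation between the Hodge numbers in dimension `d + 1` -/
theorem moment {phi : A ≃ₗ[ℂ] B} (hphi : IsMukaiIsometry X Y phi) {hX : A} {hY : B}
    (h : LinearOverBase cX cY hX hY) :
    ∑ p ∈ Finset.range (d + 2), ∑ q ∈ Finset.range (d + 2),
      (-1 : ℤ) ^ (p + q) * (2 * p - (d + 1)) ^ 2 * X.h p q =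
    ∑ p ∈ Finset.range (d + 2), ∑ q ∈ Finset.range (d + 2),
      (-1 : ℤ) ^ (p + q) * (2 * p - (d + 1)) ^ 2 * Y.h p q := by
  have h1 := cX.libgoberWood
  rw [← cX.gaussBonnet, euler_eq hphi, cY.gaussBonnet, chern_number h, ← cY.libgoberWood] at h1
  have key : ∀ g : ℕ → ℕ → ℕ, ((∑ p ∈ Finset.range (d + 2), ∑ q ∈ Finset.range (d + 2),
      (-1 : ℤ) ^ (p + q) * (2 * p - (d + 1)) ^ 2 * g p q : ℤ) : ℂ) =
      4 * ∑ p ∈ Finset.range (d + 2), ∑ q ∈ Finset.range (d + 2),
        (-1) ^ (p + q) * ((p : ℂ) - (d + 1) / 2) ^ 2 * (g p q : ℂ) := by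
    intro g
    rw [Finset.mul_sum]
    push_cast
    refine Finset.sum_congr rfl fun p _ => ?_
    rw [Finset.mul_sum]
    refine Finset.sum_congr rfl fun q _ => ?_
    ring
  have h2 : ((∑ p ∈ Finset.range (d + 2), ∑ q ∈ Finset.range (d + 2),
      (-1 : ℤ) ^ (p + q) * (2 * p - (d + 1)) ^ 2 * X.h p q : ℤ) : ℂ) =
      ((∑ p ∈ Finset.range (d + 2), ∑ q ∈ Finset.range (d + 2),
      (-1 : ℤ) ^ (p + q) * (2 * p - (d + 1)) ^ 2 * Y.h p q : ℤ) : ℂ) := by
    rw [key X.h, key Y.h, h1]
  exact_mod_cast h2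

end Compare

section Five

variable {A B : Type*} [Ring A] [Algebra ℂ A] [FiniteDimensional ℂ A]
  [Ring B] [Algebra ℂ B] [FiniteDimensional ℂ B]
  {X : HodgeRing (4 + 1) A} {Y : HodgeRing (4 + 1) B} {cX : Chern X} {cY : Chern Y}

omit [FiniteDimensional ℂ A] in
theorem chiNeg_eq (c : ℕ → A) (t : ℂ) : chiNeg X c (t • c 1) = chiOmega X c t := by
  simp only [chiNeg, chiOmega]
  refine Finset.sum_congr rfl fun j _ => ?_
  rw [smul_pow, smul_mul_assoc, map_smul, smul_eq_mul, neg_pow t]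
  ring

omit [FiniteDimensional ℂ A] in
theorem chiNeg_zero (c : ℕ → A) : chiNeg X c 0 = chiOmega X c 0 := by
  rw [← chiNeg_eq, zero_smul]

omit [FiniteDimensional ℂ A] [FiniteDimensional ℂ B] in
theorem correspond_chi {D : A} {D' : B} (h : Correspond cX cY D D') :
    chiNeg X cX.c 0 - chiNeg X cX.c D = chiNeg Y cY.c 0 - chiNeg Y cY.c D' := by
  obtain ⟨N, E, E', hE, hE', hc⟩ := h
  rw [← hE.arithmetic rfl, ← hE'.arithmetic rfl]
  refine Finset.sum_congr rfl fun i _ => ?_
  obtain ⟨h10, psi, hpsi⟩ := hc i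
  refine Finset.sum_congr rfl fun q _ => ?_
  rw [fourfold hpsi h10 0 q]

omit [FiniteDimensional ℂ A] [FiniteDimensional ℂ B] in
theorem line_chi {hX : A} {hY : B} {u : A} {v : B}
    (h : ∀ K : ℕ, ∃ k : ℤ, K < k.natAbs ∧
      Correspond cX cY ((k : ℂ) • hX + u) ((k : ℂ) • hY + v)) :
    chiNeg X cX.c 0 - chiNeg X cX.c u = chiNeg Y cY.c 0 - chiNeg Y cY.c v := by
  have h1 := poly_eq_of_infinite
    (Polynomial.C (chiNeg X cX.c 0) - chiLine X cX.c hX u)
    (Polynomial.C (chiNeg Y cY.c 0) - chiLine Y cY.c hY v) (fun K => by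
    obtain ⟨k, hk, hc⟩ := h K
    refine ⟨k, hk, ?_⟩
    rw [Polynomial.eval_sub, Polynomial.eval_sub, Polynomial.eval_C, Polynomial.eval_C,
      chiLine_eval, chiLine_eval]
    exact correspond_chi hc)
  have h2 := congrArg (Polynomial.eval 0) h1
  rwa [Polynomial.eval_sub, Polynomial.eval_sub, Polynomial.eval_C, Polynomial.eval_C,
    chiLine_eval, chiLine_eval, zero_smul, zero_add, zero_smul, zero_add] at h2

omit [FiniteDimensional ℂ A] [FiniteDimensional ℂ B] in
theorem chi_eq {hX : A} {hY : B} (h : LinearOverBase cX cY hX hY) :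
    chiOmega X cX.c 0 = chiOmega Y cY.c 0 := by
  have h1 := poly_eq_of_infinite
    (Polynomial.C (chiOmega X cX.c 0) - chiPoly X cX.c)
    (Polynomial.C (chiOmega Y cY.c 0) - chiPoly Y cY.c) (fun M => by
      obtain ⟨m, hm, hc⟩ := h M
      refine ⟨m, hm, ?_⟩
      rw [Polynomial.eval_sub, Polynomial.eval_sub, Polynomial.eval_C, Polynomial.eval_C,
        chiPoly_eval, chiPoly_eval, ← chiNeg_zero, ← chiNeg_zero, ← chiNeg_eq, ← chiNeg_eq,
        cX.c_one, cY.c_one]
      exact line_chi hc)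
  have h2 := congrArg (Polynomial.eval (1 / 2 : ℂ)) h1
  simp only [Polynomial.eval_sub, Polynomial.eval_C, chiPoly_eval, chiOmega_half] at h2
  simpa using h2

/-- the Chern classes of a fivefold in the sense of `Hodge51` -/
noncomputable def Chern.toFive (cX : Chern X) : ChernClasses (A := A) (X : HodgeRing 5 A) where
  c := cX.c
  c_mem := cX.c_mem
  c_real := cX.c_real
  c_zero := cX.c_zero
  c_one := cX.c_one
  riemannRoch := by
    rw [← chiNeg_zero]
    exact cX.riemannRoch rfl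
  gaussBonnet := cX.gaussBonnet
  libgoberWood := by
    have h := cX.libgoberWood
    norm_num at h ⊢
    exact h

/-- all Hodge numbers of fivefolds -/
theorem fivefold_linear {phi : A ≃ₗ[ℂ] B} (hphi : IsMukaiIsometry X Y phi)
    (h10 : X.h 1 0 = Y.h 1 0) {hX : A} {hY : B} (h : LinearOverBase cX cY hX hY) (p q : ℕ) :
    X.h p q = Y.h p q :=
  fivefold_of_chern cX.toFive cY.toFive hphi h10 (chi_eq h) (chern_number h) p q

end Five

end Pool.Agent.Lin57
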